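import Pool.Agent.SMP.Final

/-!
# `SMP(S)` is in NP for every finite completely regular semigroup `S`

Idea.  Every element of `⟨a_1, …, a_k⟩ ≤ S^n` has a straight-line program (circuit) with
polynomially many multiplications.  The proof goes by induction on `|S|` through the quotients
`S / L°`, `S / R°` by the largest congruences contained in Green's relations `L`, `R` (both are
trivial only for semilattices): representatives of `L`-classes are lifted from `S / L°`;
representatives of `R`-classes are obtained from the longest prefix of a product lying in a strictly
larger `J`-class (which uses fewer generators); the group part is handled by Schreier-type
generators of `e T e` and the Babai–Szemerédi doubling argument.  The costs add up, so the resulting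
bound is polynomial.  Verifying a straight-line program is done by an explicit multi-stack machine
simulated by Mathlib's `FinTM2`.
-/

namespace Pool.Agent.Results.MP_c4ab36_lc.SmpInNP

open Pool.Agent.SMP

/-- For every finite completely regular semigroup `S`, the subpower membership problem of `S` is
in NP. -/
theorem result (S : Type) [Semigroup S] [Finite S] (hS : CompletelyRegular S) :
    InNP (SubpowerMembership S) :=
  smp_inNP S hS

end Pool.Agent.Results.MP_c4ab36_lc.SmpInNP
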